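import Pool.Agent.Helper71.PR.Goals

set_option autoImplicit false

namespace Pool.Agent.Helper38.PR

open Matrix Filter Topology Pool.Agent.Helper71.PR

/-- the polynomial matrix `(1 - X) A + X` -/
noncomputable def pm {n : ℕ} (A : Mt n) : Matrix (Fin n) (Fin n) (Polynomial ℝ) :=
  fun i j => (1 - Polynomial.X) * Polynomial.C (A i j) + Polynomial.X * Polynomial.C ((1 : Mt n) i j)

theorem pm_eval {n : ℕ} (A : Mt n) (s : ℝ) :
    (pm A).map (Polynomial.eval s) = (1 - s) • A + s • (1 : Mt n) := by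
  ext i j
  simp only [pm, Matrix.map_apply, Polynomial.eval_add, Polynomial.eval_mul, Polynomial.eval_sub,
    Polynomial.eval_one, Polynomial.eval_X, Polynomial.eval_C, Matrix.add_apply, Matrix.smul_apply,
    smul_eq_mul]

theorem det_eval {n r : ℕ} (A : Mt n) (s : ℝ) (f g : Fin r → Fin n) :
    Polynomial.eval s ((pm A).submatrix f g).det = (((1 - s) • A + s • (1 : Mt n)).submatrix f g).det := by
  have h := RingHom.map_det (Polynomial.evalRingHom s) ((pm A).submatrix f g)
  rw [Polynomial.coe_evalRingHom] at h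
  rw [h, ← pm_eval A s]
  rfl

theorem gen : G_GEN := by
  intro n g h hg hh ε hε
  set A : Mt n := h⁻¹ * g with hA
  have hAdet : A.det ≠ 0 := by
    rw [hA, Matrix.det_mul]
    refine mul_ne_zero ?_ hg
    rw [Matrix.det_nonsing_inv]
    simpa using hh
  set Y : ℝ → Mt n := fun s => (1 - s) • A + s • (1 : Mt n) with hY
  -- the product of all the minors and of the determinant
  let P : Fin n → Polynomial ℝ := fun j =>
    ((pm A).submatrix (bd j j le_rfl).emb (bd j j le_rfl).emb).det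
  have hP : ∀ j s, Polynomial.eval s (P j) = ld j (Y s) := by
    intro j s
    exact det_eval A s _ _
  have hld1 : ∀ j : Fin n, ld j (1 : Mt n) = 1 := by
    intro j
    unfold ld
    rw [cp_one]
    simp
  have hY1 : Y 1 = 1 := by simp [hY]
  have hP0 : ∀ j, P j ≠ 0 := by
    intro j hj
    have := hP j 1
    rw [hj, hY1, hld1] at this
    simp at this
  let D : Polynomial ℝ := (pm A).det
  have hD : ∀ s, Polynomial.eval s D = (Y s).det := by
    intro s
    have := det_eval A s (id : Fin n → Fin n) id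
    simpa using this
  have hD0 : D ≠ 0 := by
    intro hj
    have := hD 1
    rw [hj, hY1] at this
    simp at this
  have hprod : D * ∏ j, P j ≠ 0 := mul_ne_zero hD0 (Finset.prod_ne_zero_iff.2 fun j _ => hP0 j)
  have hfin : {x | Polynomial.IsRoot (D * ∏ j, P j) x}.Finite := Polynomial.finite_setOfPred_isRoot hprod
  have hev1 : ∀ᶠ s in 𝓝[>] (0 : ℝ), s ∉ {x | Polynomial.IsRoot (D * ∏ j, P j) x} := by
    have hc : IsClosed ({x | Polynomial.IsRoot (D * ∏ j, P j) x} \ {0}) :=
      (hfin.subset Set.sdiff_subset).isClosed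
    have h0 : ({x | Polynomial.IsRoot (D * ∏ j, P j) x} \ {0})ᶜ ∈ 𝓝 (0 : ℝ) :=
      hc.isOpen_compl.mem_nhds (by simp)
    have h1 : ∀ᶠ s in 𝓝[>] (0 : ℝ), s ∈ ({x | Polynomial.IsRoot (D * ∏ j, P j) x} \ {0})ᶜ :=
      mem_nhdsWithin_of_mem_nhds h0
    filter_upwards [h1, self_mem_nhdsWithin] with s hs hpos hmem
    exact hs ⟨hmem, by
      intro h0'
      rw [Set.mem_singleton_iff] at h0'
      rw [h0'] at hpos
      exact lt_irrefl (0 : ℝ) (Set.mem_Ioi.1 hpos)⟩
  -- continuity of the inverse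
  have hY0 : Y 0 = A := by simp [hY]
  have hcY : Continuous Y := by
    rw [hY]
    fun_prop
  have hcd : Continuous fun s => (Y s).det := hcY.matrix_det
  have hca : Continuous fun s => (Y s).adjugate := hcY.matrix_adjugate
  have hlim : Tendsto (fun s => g * (Y s)⁻¹) (𝓝 0) (𝓝 h) := by
    have h1 : Tendsto (fun s => g * (((Y s).det)⁻¹ • (Y s).adjugate)) (𝓝 0)
        (𝓝 (g * (((Y 0).det)⁻¹ • (Y 0).adjugate))) := by
      have hi : Tendsto (fun s => ((Y s).det)⁻¹) (𝓝 0) (𝓝 ((Y 0).det)⁻¹) :=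
        (hcd.tendsto 0).inv₀ (by rw [hY0]; exact hAdet)
      exact tendsto_const_nhds.mul (hi.smul (hca.tendsto 0))
    have h2 : ∀ s, (Y s)⁻¹ = ((Y s).det)⁻¹ • (Y s).adjugate := by
      intro s
      rw [Matrix.inv_def, Ring.inverse_eq_inv']
    have h3 : g * (Y 0)⁻¹ = h := by
      rw [hY0, hA, Matrix.mul_inv_rev, Matrix.nonsing_inv_nonsing_inv _ (by simpa [isUnit_iff_ne_zero] using hh),
        ← Matrix.mul_assoc, Matrix.mul_nonsing_inv _ (by simpa [isUnit_iff_ne_zero] using hg), Matrix.one_mul]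
    rw [← h2 0, h3] at h1
    refine h1.congr fun s => ?_
    rw [← h2 s]
  have hev2 : ∀ᶠ s in 𝓝[>] (0 : ℝ), near (g * (Y s)⁻¹) h ε := by
    apply Filter.Eventually.filter_mono nhdsWithin_le_nhds
    unfold near
    rw [Filter.eventually_all]
    intro i
    rw [Filter.eventually_all]
    intro j
    have h4 : Tendsto (fun s => (g * (Y s)⁻¹) i j) (𝓝 0) (𝓝 (h i j)) :=
      ((continuous_apply_apply i j).tendsto h).comp hlim
    have h5 := (Metric.tendsto_nhds.1 h4) ε hε
    filter_upwards [h5] with s hs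
    rw [Real.dist_eq] at hs
    exact hs.le
  obtain ⟨s, hs1, hs2⟩ := (hev1.and hev2).exists
  have hne : Polynomial.eval s (D * ∏ j, P j) ≠ 0 := hs1
  rw [Polynomial.eval_mul, Polynomial.eval_prod] at hne
  have hYd : (Y s).det ≠ 0 := by
    rw [← hD]; exact left_ne_zero_of_mul hne
  have hlds : ∀ j, ld j (Y s) ≠ 0 := by
    intro j
    rw [← hP]
    exact Finset.prod_ne_zero_iff.1 (right_ne_zero_of_mul hne) j (Finset.mem_univ j)
  have hYu : IsUnit (Y s).det := isUnit_iff_ne_zero.2 hYd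
  have hgu : IsUnit g.det := isUnit_iff_ne_zero.2 hg
  refine ⟨g * (Y s)⁻¹, ?_, hs2, ?_⟩
  · rw [Matrix.det_mul, Matrix.det_nonsing_inv, Ring.inverse_eq_inv']
    exact mul_ne_zero hg (inv_ne_zero hYd)
  · have : (g * (Y s)⁻¹)⁻¹ * g = Y s := by
      rw [Matrix.mul_inv_rev, Matrix.nonsing_inv_nonsing_inv _ hYu, Matrix.mul_assoc,
        Matrix.nonsing_inv_mul _ hgu, Matrix.mul_one]
    intro j
    rw [this]
    exact hlds j

end Pool.Agent.Helper38.PR
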